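import Pool.Agent.Helper37_PFS.Stmts3

/-!
# PFS squad (MP_e54c4c_gt), row FCS
-/

set_option autoImplicit false

open Matrix Filter Topology

namespace Pool.Agent.PFS.H24

/-- row FCS -/
theorem fcs (lin : LinStmt) : FcsStmt := by
  classical
  intro n C P K w hw hF I hI β y hy hβ
  have hind := Fintype.linearIndependent_iff.1 (lin n C P (Fin K) w hw)
  have hwcl : ∀ i, w i ∈ closure C := fun i => hw.cl i
  have hxcl : ∑ i ∈ I, w i ∈ closure C := P.cl_sum fun i _ => hwcl i
  by_cases hb : 0 < β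
  swap
  · have hy0 : y = 0 := by
      apply P.salient y hy
      have h2 := P.cl_add hβ (P.cl_smul hxcl (t := -β) (by linarith))
      have h3 : β • ∑ i ∈ I, w i - y + -β • ∑ i ∈ I, w i = -y := by
        rw [neg_smul]; abel
      rwa [h3] at h2
    refine ⟨fun _ => 0, fun _ => le_rfl, fun _ _ => rfl, ?_⟩
    rw [hy0, Finset.sum_eq_zero fun i _ => zero_smul ℝ (w i)]
  obtain ⟨l, hl⟩ : ∃ l, l ∉ I := by
    by_contra hcon
    push Not at hcon
    exact hI (Finset.eq_univ_of_forall hcon)
  obtain ⟨x, hx⟩ : ∃ x, x = ∑ i ∈ Finset.univ.erase l, w i := ⟨_, rfl⟩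
  have hxC : x ∈ closure C := by
    rw [hx]
    exact P.cl_sum fun i _ => hwcl i
  obtain ⟨δ, hδ⟩ : ∃ δ : Fin K → ℝ, δ = fun i => if i = l then 0 else 1 := ⟨_, rfl⟩
  have hδl : δ l = 0 := by rw [hδ]; exact if_pos rfl
  have hδi : ∀ i, i ≠ l → δ i = 1 := fun i hi => by rw [hδ]; exact if_neg hi
  have hxδ : x = ∑ i, δ i • w i := by
    rw [hx, ← Finset.add_sum_erase Finset.univ (fun i => δ i • w i) (Finset.mem_univ l), hδl,
      zero_smul, zero_add]
    apply Finset.sum_congr rfl
    intro i hi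
    rw [hδi i (Finset.ne_of_mem_erase hi), one_smul]
  have key : ∀ z ∈ closure C, ∀ B : ℝ, 0 < B → B • x - z ∈ closure C →
      ∃ d : Fin K → ℝ, (∀ i, 0 ≤ d i) ∧ z = ∑ i, d i • w i := by
    intro z hz B hB hBz
    have hface : ∀ μ : ℝ, 0 < μ → x + μ • z ∈ Face C x := by
      intro μ hμ
      have hpos : 0 < 1 + μ * B := by positivity
      refine ⟨1 / (1 + μ * B), by positivity, ?_, ?_⟩
      · have h1 : x - (1 / (1 + μ * B)) • (x + μ • z) =
            (μ / (1 + μ * B)) • (B • x - z) := by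
          rw [smul_add, smul_smul, smul_sub, smul_smul]
          have h2 : x = (1 / (1 + μ * B)) • x + (μ / (1 + μ * B) * B) • x := by
            rw [← add_smul]
            have h3 : 1 / (1 + μ * B) + μ / (1 + μ * B) * B = 1 := by
              field_simp
            rw [h3, one_smul]
          have h4 : 1 / (1 + μ * B) * μ = μ / (1 + μ * B) := by
            field_simp
          rw [h4]
          nth_rewrite 1 [h2]
          abel
        rw [h1]
        exact P.cl_smul hBz (by positivity)
      · have h1 : x + μ • z - (1 / (1 + μ * B)) • x =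
            (μ * B / (1 + μ * B)) • x + μ • z := by
          have h2 : x = (1 / (1 + μ * B)) • x + (μ * B / (1 + μ * B)) • x := by
            rw [← add_smul]
            have h3 : 1 / (1 + μ * B) + μ * B / (1 + μ * B) = 1 := by
              field_simp
            rw [h3, one_smul]
          nth_rewrite 1 [h2]
          abel
        rw [h1]
        exact P.cl_add (P.cl_smul hxC (by positivity)) (P.cl_smul hz hμ.le)
    have hrep : ∀ μ : ℝ, 0 < μ → ∃ c : Fin K → ℝ, c l = 0 ∧ (∀ i, i ≠ l → 0 < c i) ∧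
        x + μ • z = ∑ i, c i • w i := by
      intro μ hμ
      apply hF l
      rw [← hx]
      exact hface μ hμ
    obtain ⟨c₁, hc₁l, hc₁i, hc₁⟩ := hrep 1 one_pos
    have hz1 : z = ∑ i, (c₁ i - δ i) • w i := by
      simp only [sub_smul]
      rw [Finset.sum_sub_distrib, ← hc₁, ← hxδ, one_smul]
      abel
    refine ⟨fun i => c₁ i - δ i, ?_, hz1⟩
    intro i
    by_cases hi : i = l
    · rw [hi]
      show 0 ≤ c₁ l - δ l
      rw [hc₁l, hδl, sub_zero]
    · by_contra hneg
      rw [not_le] at hneg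
      obtain ⟨d, hd⟩ : ∃ d, d = c₁ i - δ i := ⟨_, rfl⟩
      have hneg' : d < 0 := by rw [hd]; exact hneg
      have hμ : 0 < -1 / d := div_pos_of_neg_of_neg (by norm_num) hneg'
      obtain ⟨c, hcl, hci, hc⟩ := hrep (-1 / d) hμ
      have h1 : ∑ j, (c j - δ j - (-1 / d) * (c₁ j - δ j)) • w j = 0 := by
        have h2 : ∑ j, (c j - δ j - (-1 / d) * (c₁ j - δ j)) • w j =
            ∑ j, c j • w j - ∑ j, δ j • w j - (-1 / d) • ∑ j, (c₁ j - δ j) • w j := by
          rw [Finset.smul_sum, ← Finset.sum_sub_distrib, ← Finset.sum_sub_distrib]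
          apply Finset.sum_congr rfl
          intro j _
          rw [sub_smul, sub_smul, smul_smul]
        rw [h2, ← hc, ← hxδ, ← hz1]
        abel
      have h2 := hind _ h1 i
      have h3 := hci i hi
      have h4 : c i - δ i - (-1 / d) * (c₁ i - δ i) = 0 := h2
      rw [← hd, hδi i hi] at h4
      have h5 : -1 / d * d = -1 := by
        rw [div_mul_cancel₀]
        exact hneg'.ne
      rw [h5] at h4
      linarith
  have hIx : x - ∑ i ∈ I, w i ∈ closure C := by
    have hsub : I ⊆ Finset.univ.erase l := by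
      intro i hi
      refine Finset.mem_erase.2 ⟨?_, Finset.mem_univ i⟩
      rintro rfl
      exact hl hi
    rw [hx, ← Finset.sum_sdiff hsub, add_sub_cancel_right]
    exact P.cl_sum fun i _ => hwcl i
  obtain ⟨d, hd0, hd⟩ := key y hy β hb (by
    have h1 := P.cl_add (P.cl_smul hIx hb.le) hβ
    have h2 : β • (x - ∑ i ∈ I, w i) + (β • ∑ i ∈ I, w i - y) = β • x - y := by
      rw [smul_sub]; abel
    rwa [h2] at h1)
  obtain ⟨d', hd'0, hd'⟩ := key (β • ∑ i ∈ I, w i - y) hβ β hb (by
    have h1 := P.cl_add (P.cl_smul hIx hb.le) hy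
    have h2 : β • (x - ∑ i ∈ I, w i) + y = β • x - (β • ∑ i ∈ I, w i - y) := by
      rw [smul_sub]; abel
    rwa [h2] at h1)
  refine ⟨d, hd0, ?_, hd⟩
  intro i hi
  have h1 : ∑ j, (d j + d' j - (if j ∈ I then β else 0)) • w j = 0 := by
    have h2 : ∑ j, (d j + d' j - (if j ∈ I then β else 0)) • w j =
        ∑ j, d j • w j + ∑ j, d' j • w j - ∑ j, (if j ∈ I then β else 0) • w j := by
      rw [← Finset.sum_add_distrib, ← Finset.sum_sub_distrib]
      apply Finset.sum_congr rfl
      intro j _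
      rw [sub_smul, add_smul]
    have h3 : ∑ j, (if j ∈ I then β else 0) • w j = β • ∑ j ∈ I, w j := by
      simp only [ite_smul, zero_smul]
      rw [Finset.sum_ite_mem, Finset.univ_inter, Finset.smul_sum]
    rw [h2, ← hd, ← hd', h3]
    abel
  have h2 := hind _ h1 i
  have h4 : d i + d' i - (if i ∈ I then β else 0) = 0 := h2
  rw [if_neg hi] at h4
  have h5 := hd0 i
  have h6 := hd'0 i
  linarith

end Pool.Agent.PFS.H24
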